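import Pool.Agent.Lib_helper49.CG.Fin3

set_option autoImplicit false

namespace Pool.Agent.Results.MP_7feddf_nt.LocallyPeriodicGaps

open Finset

/-- A finite sequence `a_0 < ... < a_(k-1)` of positive integers is admissible if its sums over
blocks of consecutive terms are pairwise distinct (the definition of the problem). -/
def Admissible {k : ℕ} (a : Fin k → ℕ) : Prop :=
  StrictMono a ∧ (∀ i, 1 ≤ a i) ∧
    ∀ u v u' v' : Fin k, u ≤ v → u' ≤ v' →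
      ∑ i ∈ Icc u v, a i = ∑ i ∈ Icc u' v', a i → u = u' ∧ v = v'

/-- The gap `d_i = a_(i+1) - a_i`, for `i + 1 < k`. -/
def gap {k : ℕ} (a : Fin k → ℕ) (i : ℕ) : ℕ :=
  if h : i + 1 < k then a ⟨i + 1, h⟩ - a ⟨i, Nat.lt_of_succ_lt h⟩ else 0

/-- The gaps `d_v, ..., d_(v+R-1)` (those which exist) have the period `q`. -/
def Period {k : ℕ} (a : Fin k → ℕ) (v R q : ℕ) : Prop :=
  ∀ i, v ≤ i → i + q < v + R → i + q + 1 < k → gap a (i + q) = gap a i

/-- `D` is a set of cuts: if there is no `i ∈ D` with `u ≤ i < w`, then the gaps `d_u, ..., d_w` are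
monotone (nondecreasing or nonincreasing). -/
def Cuts {k : ℕ} (a : Fin k → ℕ) (D : Set ℕ) : Prop :=
  ∀ u w, u ≤ w → w + 1 < k → (∀ i ∈ D, ¬ (u ≤ i ∧ i < w)) →
    (∀ i j, u ≤ i → i ≤ j → j ≤ w → gap a i ≤ gap a j) ∨
      (∀ i j, u ≤ i → i ≤ j → j ≤ w → gap a j ≤ gap a i)

/-! ### translation -/

/-- extension of a finite sequence by zero -/
def ext {k : ℕ} (a : Fin k → ℕ) : ℕ → ℕ := fun i => if h : i < k then a ⟨i, h⟩ else 0

theorem ext_lt {k : ℕ} (a : Fin k → ℕ) {i : ℕ} (h : i < k) : ext a i = a ⟨i, h⟩ := dif_pos h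

theorem S_ext {k : ℕ} (a : Fin k → ℕ) {u v : ℕ} (huv : u ≤ v) (hv : v < k) :
    CG.S (ext a) (v + 1) - CG.S (ext a) u =
      ((∑ i ∈ Icc (⟨u, huv.trans_lt hv⟩ : Fin k) ⟨v, hv⟩, a i : ℕ) : ℤ) := by
  have h1 : ∑ i ∈ Icc (⟨u, huv.trans_lt hv⟩ : Fin k) ⟨v, hv⟩, a i = ∑ i ∈ Ico u (v + 1), ext a i := by
    have h2 : Ico u (v + 1) = Icc u v := by
      ext i
      rw [mem_Ico, mem_Icc]
      omega
    have h3 : ∑ i ∈ Icc (⟨u, huv.trans_lt hv⟩ : Fin k) ⟨v, hv⟩, a i =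
        ∑ i ∈ Icc (⟨u, huv.trans_lt hv⟩ : Fin k) ⟨v, hv⟩, ext a i.val :=
      sum_congr rfl fun i _ => (ext_lt a i.2).symm
    have h5 : Icc u v = (Icc (⟨u, huv.trans_lt hv⟩ : Fin k) ⟨v, hv⟩).map Fin.valEmbedding :=
      (Fin.map_valEmbedding_Icc (⟨u, huv.trans_lt hv⟩ : Fin k) ⟨v, hv⟩).symm
    rw [h2, h3, h5, sum_map]
    rfl
  rw [h1]
  unfold CG.S
  have h4 := sum_range_add_sum_Ico (fun i => (ext a i : ℤ)) (show u ≤ v + 1 by omega)
  push_cast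
  linarith

theorem ad_ext {k : ℕ} {a : Fin k → ℕ} (h : Admissible a) : CG.Ad k (ext a) where
  inc i j hij hj := by
    rw [ext_lt a (hij.trans hj), ext_lt a hj]
    exact h.1 (Fin.mk_lt_mk.2 hij)
  pos i hi := by
    rw [ext_lt a hi]
    exact h.2.1 _
  inj u v u' v' huv hv huv' hv' he := by
    obtain ⟨w, rfl⟩ := Nat.exists_eq_succ_of_ne_zero (show v ≠ 0 by omega)
    obtain ⟨w', rfl⟩ := Nat.exists_eq_succ_of_ne_zero (show v' ≠ 0 by omega)
    rw [Nat.succ_eq_add_one, Nat.succ_eq_add_one, S_ext a (by omega) (by omega),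
      S_ext a (by omega) (by omega)] at he
    have h1 := h.2.2 (⟨u, by omega⟩ : Fin k) ⟨w, by omega⟩ ⟨u', by omega⟩ ⟨w', by omega⟩
      (Fin.mk_le_mk.2 (by omega)) (Fin.mk_le_mk.2 (by omega)) (by exact_mod_cast he)
    rw [Fin.mk.injEq, Fin.mk.injEq] at h1
    omega

theorem gap_ext {k : ℕ} (a : Fin k → ℕ) {i : ℕ} (h : i + 1 < k) : CG.gap (ext a) i = gap a i := by
  unfold CG.gap gap
  rw [dif_pos h, ext_lt a h, ext_lt a (Nat.lt_of_succ_lt h)]

theorem reg_iff {k : ℕ} (a : Fin k → ℕ) (B R v : ℕ) :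
    CG.Reg k (ext a) B R v ↔ ∃ q, 1 ≤ q ∧ q ≤ B ∧ Period a v R q := by
  unfold CG.Reg Period
  refine exists_congr fun q => and_congr_right fun hq => and_congr_right fun _ => ?_
  refine forall_congr' fun i => forall_congr' fun _ => forall_congr' fun _ =>
    forall_congr' fun h => ?_
  rw [gap_ext a h, gap_ext a (by omega)]

open scoped Classical in
/-- the cuts as a finite set -/
noncomputable def fin (k : ℕ) (D : Set ℕ) : Finset ℕ := (range k).filter (· ∈ D)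

open scoped Classical in
theorem mem_fin {k : ℕ} {D : Set ℕ} {i : ℕ} : i ∈ fin k D ↔ i < k ∧ i ∈ D := by
  unfold fin
  rw [mem_filter, mem_range]

theorem cut_ext {k : ℕ} {a : Fin k → ℕ} {D : Set ℕ} (h : Cuts a D) :
    CG.Cut k (ext a) (fin k D) := by
  intro u w huw hw hD
  have h1 : ∀ i ∈ D, ¬ (u ≤ i ∧ i < w) := by
    intro i hi hc
    have := hD i (mem_fin.2 ⟨by omega, hi⟩)
    omega
  rcases h u w huw hw h1 with h2 | h2
  · refine Or.inl fun i j hi hij hj => ?_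
    rw [gap_ext a (by omega), gap_ext a (by omega)]
    exact h2 i j hi hij hj
  · refine Or.inr fun i j hi hij hj => ?_
    rw [gap_ext a (by omega), gap_ext a (by omega)]
    exact h2 i j hi hij hj

open scoped Classical in
theorem cuts_ncard {k : ℕ} (a : Fin k → ℕ) (D : Set ℕ) (x : ℝ) :
    (CG.cuts k (ext a) (fin k D) x).card =
      {i | i ∈ D ∧ ∃ h : i < k, (a ⟨i, h⟩ : ℝ) ≤ x}.ncard := by
  rw [← Set.ncard_coe_finset]
  congr 1
  ext i
  unfold CG.cuts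
  rw [mem_coe, mem_filter, mem_fin, Set.mem_ofPred_eq]
  constructor
  · rintro ⟨⟨h1, h2⟩, -, h3⟩
    refine ⟨h2, h1, ?_⟩
    rw [← ext_lt a h1]
    exact h3
  · rintro ⟨h1, h2, h3⟩
    refine ⟨⟨h2, h1⟩, h2, ?_⟩
    rw [ext_lt a h2]
    exact h3

open scoped Classical in
theorem irr_ncard {k : ℕ} (a : Fin k → ℕ) (b : ℕ) (x : ℝ) :
    (CG.irr k (ext a) b x).card =
      {v | ∃ h : v < k, (a ⟨v, h⟩ : ℝ) ≤ x ∧ ¬ ∃ q, 1 ≤ q ∧ q ≤ Nat.log 2 (a ⟨v, h⟩) ^ b ∧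
        Period a v (Nat.log 2 (a ⟨v, h⟩) ^ (5 * b + 3)) q}.ncard := by
  rw [← Set.ncard_coe_finset]
  congr 1
  ext v
  unfold CG.irr
  rw [mem_coe, mem_filter, mem_range, Set.mem_ofPred_eq]
  constructor
  · rintro ⟨h1, h2, h3⟩
    rw [ext_lt a h1] at h2 h3
    rw [reg_iff] at h3
    exact ⟨h1, h2, h3⟩
  · rintro ⟨h1, h2, h3⟩
    refine ⟨h1, ?_, ?_⟩
    · rw [ext_lt a h1]
      exact h2
    · rw [ext_lt a h1, reg_iff]
      exact h3

theorem sum_ext {k : ℕ} (a : Fin k → ℕ) :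
    ∑ i ∈ range k, 1 / (ext a i : ℝ) = ∑ i, (1 : ℝ) / (a i : ℝ) := by
  rw [← Fin.sum_univ_eq_sum_range (fun i => 1 / (ext a i : ℝ)) k]
  exact sum_congr rfl fun i _ => by rw [ext_lt a i.2]

/-- Q1 for sequences whose gaps are locally periodic or have few turning points. -/
theorem result :
    -- (1) few terms are followed by `R` gaps with a small period
    (∃ C : ℝ, ∀ (k : ℕ) (a : Fin k → ℕ), Admissible a → ∀ B R Y : ℕ, 1 ≤ B → 1 ≤ R →
      (({v | ∃ h : v + R < k, a ⟨v + R, h⟩ ≤ Y ∧ ∃ q, 1 ≤ q ∧ q ≤ B ∧ Period a v R q}.ncard : ℕ) : ℝ)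
        ≤ C * Y * (B : ℝ) ^ (5 / 2 : ℝ) * Real.log (2 * R) / Real.sqrt R) ∧
    -- (2) few terms, if the gaps form few monotone pieces
    (∃ C : ℝ, ∀ (k : ℕ) (a : Fin k → ℕ), Admissible a → ∀ D : Set ℕ, Cuts a D → ∀ Y T : ℕ,
      {i | i ∈ D ∧ ∃ h : i < k, (a ⟨i, h⟩ : ℝ) ≤ Y}.ncard + 1 ≤ T → T ≤ Y →
      (({i : Fin k | a i ≤ Y}.ncard : ℕ) : ℝ) ≤
        C * (Y : ℝ) ^ (3 / 4 : ℝ) * (T : ℝ) ^ (1 / 4 : ℝ) * (1 + Real.log (Y / T))) ∧
    -- (3) Q1 for few monotone pieces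
    (∀ A : ℝ, ∃ C : ℝ, ∀ (k : ℕ) (a : Fin k → ℕ), Admissible a → ∀ D : Set ℕ, Cuts a D →
      (∀ x : ℝ, 2 ≤ x → (({i | i ∈ D ∧ ∃ h : i < k, (a ⟨i, h⟩ : ℝ) ≤ x}.ncard : ℕ) : ℝ) ≤
        A * x / Real.log x ^ 5) →
      ∑ i, (1 : ℝ) / (a i : ℝ) ≤ C) ∧
    -- (4) Q1 for locally periodic gaps
    (∀ (A : ℝ) (b : ℕ), ∃ C : ℝ, ∀ (k : ℕ) (a : Fin k → ℕ), Admissible a →
      (∀ x : ℝ, 2 ≤ x → (({v | ∃ h : v < k, (a ⟨v, h⟩ : ℝ) ≤ x ∧
          ¬ ∃ q, 1 ≤ q ∧ q ≤ Nat.log 2 (a ⟨v, h⟩) ^ b ∧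
            Period a v (Nat.log 2 (a ⟨v, h⟩) ^ (5 * b + 3)) q}.ncard : ℕ) : ℝ) ≤
        A * x / Real.log x ^ 2) →
      ∑ i, (1 : ℝ) / (a i : ℝ) ≤ C) := by
  classical
  refine ⟨⟨80, fun k a ha B R Y hB hR => ?_⟩, ⟨100, fun k a ha D hD Y T hT1 hT => ?_⟩,
    fun A => ?_, fun A b => ?_⟩
  · set W : Finset ℕ := (range k).filter fun v => ∃ h : v + R < k, a ⟨v + R, h⟩ ≤ Y ∧
      ∃ q, 1 ≤ q ∧ q ≤ B ∧ Period a v R q with hW
    have h1 : {v | ∃ h : v + R < k, a ⟨v + R, h⟩ ≤ Y ∧ ∃ q, 1 ≤ q ∧ q ≤ B ∧ Period a v R q}.ncard =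
        W.card := by
      rw [← Set.ncard_coe_finset]
      congr 1
      ext v
      rw [mem_coe, hW, mem_filter, mem_range, Set.mem_ofPred_eq]
      exact ⟨fun h => ⟨by have := h.1; omega, h⟩, fun h => h.2⟩
    have h2 := CG.card_reg (ad_ext ha) (B := B) (R := R) (Y := Y) hB hR W fun v hv => by
      rw [hW, mem_filter] at hv
      obtain ⟨-, h, h3, h4⟩ := hv
      exact ⟨h, by rw [ext_lt a h]; exact h3, (reg_iff a B R v).2 h4⟩
    have h3 : (B : ℝ) ^ (5 / 2 : ℝ) = B ^ 2 * Real.sqrt B := by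
      have hB0 : (0 : ℝ) < B := by exact_mod_cast hB
      rw [Real.sqrt_eq_rpow, ← Real.rpow_natCast, ← Real.rpow_add hB0]
      norm_num
    rw [h1, h3]
    refine h2.trans (le_of_eq ?_)
    ring
  · obtain ⟨n, hn, hnY⟩ := CG.initial (ad_ext ha) Y
    have h1 : {i : Fin k | a i ≤ Y}.ncard = n := by
      have h2 : {i : Fin k | a i ≤ Y} = ((univ.filter fun i : Fin k => i.val < n : Finset (Fin k)) :
          Set (Fin k)) := by
        ext i
        rw [Set.mem_ofPred_eq, mem_coe, mem_filter]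
        have h3 := hnY i.val i.2
        rw [ext_lt a i.2] at h3
        exact ⟨fun h => ⟨mem_univ _, h3.2 h⟩, fun h => h3.1 h.2⟩
      rw [h2, Set.ncard_coe_finset]
      have h4 : (univ.filter fun i : Fin k => i.val < n).card = ((range n)).card := by
        refine card_bij (fun i _ => i.val) (fun i hi => ?_) (fun i _ j _ h => Fin.ext h)
          fun m hm => ?_
        · rw [mem_filter] at hi
          exact mem_range.2 hi.2
        · have := mem_range.1 hm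
          exact ⟨⟨m, by omega⟩, by rw [mem_filter]; exact ⟨mem_univ _, this⟩, rfl⟩
      rw [h4, card_range]
    rw [h1]
    rw [← cuts_ncard a D (Y : ℝ)] at hT1
    exact CG.card_pieces (ad_ext ha) (fin k D) (cut_ext hD) hn hnY hT1 hT
  · obtain ⟨C, hC⟩ := CG.sum_pieces (A := max A 0) (le_max_right A 0)
    refine ⟨C, fun k a ha D hD h => ?_⟩
    rw [← sum_ext]
    refine hC k (ext a) (ad_ext ha) (fin k D) (cut_ext hD) fun x hx => ?_
    rw [cuts_ncard]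
    refine (h x hx).trans ?_
    have h1 : 0 < Real.log x := Real.log_pos (by linarith)
    have h2 : 0 ≤ x / Real.log x ^ 5 := by positivity
    rw [mul_div_assoc, mul_div_assoc]
    exact mul_le_mul_of_nonneg_right (le_max_left A 0) h2
  · obtain ⟨C, hC⟩ := CG.sum_local b (A := max A 0) (le_max_right A 0)
    refine ⟨C, fun k a ha h => ?_⟩
    rw [← sum_ext]
    refine hC k (ext a) (ad_ext ha) fun x hx => ?_
    rw [irr_ncard]
    refine (h x hx).trans ?_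
    have h1 : 0 < Real.log x := Real.log_pos (by linarith)
    have h2 : 0 ≤ x / Real.log x ^ 2 := by positivity
    rw [mul_div_assoc, mul_div_assoc]
    exact mul_le_mul_of_nonneg_right (le_max_left A 0) h2

end Pool.Agent.Results.MP_7feddf_nt.LocallyPeriodicGaps
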