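import Pool.Agent.Lib_helper63.TQ.Equiv

set_option autoImplicit false

namespace Pool.Agent.Results.MP_7feddf_nt.TailEquivalence

open Finset

/-- A finite sequence `a_1 < ... < a_k` of positive integers is admissible if its sums over
blocks of consecutive terms are pairwise distinct (the definition of the problem). -/
def Admissible {k : ℕ} (a : Fin k → ℕ) : Prop :=
  StrictMono a ∧ (∀ i, 1 ≤ a i) ∧
    ∀ u v u' v' : Fin k, u ≤ v → u' ≤ v' →
      ∑ i ∈ Icc u v, a i = ∑ i ∈ Icc u' v', a i → u = u' ∧ v = v'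

/-- An infinite sequence `a_0 < a_1 < ...` of positive integers is admissible if all its sums over
(finite) blocks of consecutive terms are pairwise distinct. -/
def AdmissibleInf (a : ℕ → ℕ) : Prop :=
  StrictMono a ∧ (∀ i, 1 ≤ a i) ∧
    ∀ u v u' v' : ℕ, u ≤ v → u' ≤ v' →
      ∑ i ∈ Icc u v, a i = ∑ i ∈ Icc u' v', a i → u = u' ∧ v = v'

/-- The statement of Q1 (Erdos and Harzheim), exactly as in the frozen statement `S17577`. -/
def Q1 : Prop :=
  ∃ C : ℝ, ∀ (k : ℕ) (a : Fin k → ℕ), StrictMono a → (∀ i, 1 ≤ a i) →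
      (∀ u v u' v' : Fin k, u ≤ v → u' ≤ v' →
        ∑ i ∈ Finset.Icc u v, a i = ∑ i ∈ Finset.Icc u' v', a i → u = u' ∧ v = v') →
      ∑ i, (1 : ℝ) / (a i : ℝ) ≤ C

/-- extension of a finite sequence by zero -/
def ext {k : ℕ} (a : Fin k → ℕ) : ℕ → ℕ := fun i => if h : i < k then a ⟨i, h⟩ else 0

theorem ext_val {k : ℕ} (a : Fin k → ℕ) (i : Fin k) : ext a i = a i := by
  simp [ext, i.2]

theorem sum_Icc (e : ℕ → ℕ) {u v : ℕ} (h : u ≤ v) :
    ∑ i ∈ Icc u v, e i + TQ.S e u = TQ.S e (v + 1) := by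
  have h1 : Icc u v = Ico u (v + 1) := by
    ext i; simp
  unfold TQ.S
  rw [h1, range_eq_Ico, range_eq_Ico, add_comm]
  exact sum_Ico_consecutive e (Nat.zero_le u) (by omega)

theorem sum_Icc_fin {k : ℕ} (e : ℕ → ℕ) (u v : Fin k) :
    ∑ i ∈ Icc u v, e i = ∑ i ∈ Icc (u : ℕ) v, e i := by
  rw [← Fin.map_valEmbedding_Icc, sum_map]
  rfl

theorem ad_ext {k : ℕ} {a : Fin k → ℕ} (h : Admissible a) : TQ.Ad k (ext a) := by
  obtain ⟨h1, h2, h3⟩ := h
  refine ⟨fun i j hij hj => ?_, fun i hi => ?_, ?_⟩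
  · have := h1 (show (⟨i, hij.trans hj⟩ : Fin k) < ⟨j, hj⟩ from hij)
    rw [← ext_val a, ← ext_val a] at this
    exact this
  · have := h2 ⟨i, hi⟩
    rw [← ext_val a] at this
    exact this
  · intro u v u' v' huv hv huv' hv' heq
    obtain ⟨w, rfl⟩ := Nat.exists_eq_succ_of_ne_zero (show v ≠ 0 by omega)
    obtain ⟨w', rfl⟩ := Nat.exists_eq_succ_of_ne_zero (show v' ≠ 0 by omega)
    have key : ∑ i ∈ Icc (⟨u, by omega⟩ : Fin k) ⟨w, by omega⟩, a i =
        ∑ i ∈ Icc (⟨u', by omega⟩ : Fin k) ⟨w', by omega⟩, a i := by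
      have e1 : ∀ x y : Fin k, ∑ i ∈ Icc x y, a i = ∑ i ∈ Icc (x : ℕ) y, ext a i := by
        intro x y
        rw [← sum_Icc_fin]
        exact sum_congr rfl fun i _ => (ext_val a i).symm
      rw [e1, e1]
      have g1 := sum_Icc (ext a) (show u ≤ w by omega)
      have g2 := sum_Icc (ext a) (show u' ≤ w' by omega)
      change ∑ i ∈ Icc u w, ext a i = ∑ i ∈ Icc u' w', ext a i
      change TQ.S (ext a) (w + 1) + _ = TQ.S (ext a) (w' + 1) + _ at heq
      omega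
    have := h3 _ _ _ _ (show (⟨u, by omega⟩ : Fin k) ≤ ⟨w, by omega⟩ from by
        change u ≤ w; omega) (show (⟨u', by omega⟩ : Fin k) ≤ ⟨w', by omega⟩ from by
        change u' ≤ w'; omega) key
    obtain ⟨g1, g2⟩ := this
    have g3 := congrArg Fin.val g1
    have g4 := congrArg Fin.val g2
    change u = u' at g3
    change w = w' at g4
    exact ⟨g3, by rw [g4]⟩

theorem adm_of_ad {k : ℕ} {e : ℕ → ℕ} (h : TQ.Ad k e) : Admissible (fun i : Fin k => e i) := by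
  obtain ⟨h1, h2, h3⟩ := h
  refine ⟨fun i j hij => h1 _ _ hij j.2, fun i => h2 _ i.2, ?_⟩
  intro u v u' v' huv huv' heq
  have e1 : ∑ i ∈ Icc u v, e i = ∑ i ∈ Icc u' v', e i := heq
  rw [sum_Icc_fin, sum_Icc_fin] at e1
  have g1 := sum_Icc e (show (u : ℕ) ≤ v from huv)
  have g2 := sum_Icc e (show (u' : ℕ) ≤ v' from huv')
  have huv2 : (u : ℕ) ≤ v := huv
  have huv2' : (u' : ℕ) ≤ v' := huv'
  have := h3 u (v + 1) u' (v' + 1) (by omega) (by have := v.2; omega) (by omega)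
    (by have := v'.2; omega) (by omega)
  exact ⟨Fin.ext this.1, Fin.ext (by omega)⟩

theorem adInf_iff (a : ℕ → ℕ) : AdmissibleInf a ↔ TQ.AdInf a := by
  constructor
  · rintro ⟨h1, h2, h3⟩ k
    refine ⟨fun i j hij _ => h1 hij, fun i _ => h2 i, ?_⟩
    intro u v u' v' huv hv huv' hv' heq
    obtain ⟨w, rfl⟩ := Nat.exists_eq_succ_of_ne_zero (show v ≠ 0 by omega)
    obtain ⟨w', rfl⟩ := Nat.exists_eq_succ_of_ne_zero (show v' ≠ 0 by omega)
    have g1 := sum_Icc a (show u ≤ w by omega)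
    have g2 := sum_Icc a (show u' ≤ w' by omega)
    change TQ.S a (w + 1) + _ = TQ.S a (w' + 1) + _ at heq
    have := h3 u w u' w' (by omega) (by omega) (by omega)
    exact ⟨this.1, by rw [this.2]⟩
  · intro h
    refine ⟨fun i j hij => (h (j + 1)).1 i j hij (by omega), fun i => (h (i + 1)).2.1 i (by omega),
      ?_⟩
    intro u v u' v' huv huv' heq
    have g1 := sum_Icc a huv
    have g2 := sum_Icc a huv'
    have := (h (max (v + 1) (v' + 1))).2.2 u (v + 1) u' (v' + 1) (by omega) (le_max_left _ _)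
      (by omega) (le_max_right _ _) (by omega)
    exact ⟨this.1, by omega⟩

theorem R_fin {k : ℕ} (e : ℕ → ℕ) : TQ.R e k = ∑ i : Fin k, (1 : ℝ) / (e i : ℝ) := by
  unfold TQ.R
  rw [Finset.sum_range]

theorem R_ext {k : ℕ} (a : Fin k → ℕ) : TQ.R (ext a) k = ∑ i, (1 : ℝ) / (a i : ℝ) := by
  rw [R_fin]
  exact sum_congr rfl fun i _ => by rw [ext_val]

theorem q1_iff : Q1 ↔ TQ.Bdd := by
  constructor
  · rintro ⟨C, hC⟩
    refine ⟨C, fun k a ha => ?_⟩
    obtain ⟨h1, h2, h3⟩ := adm_of_ad ha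
    rw [R_fin]
    exact hC k _ h1 h2 h3
  · rintro ⟨C, hC⟩
    refine ⟨C, fun k a h1 h2 h3 => ?_⟩
    rw [← R_ext]
    exact hC k _ (ad_ext ⟨h1, h2, h3⟩)

/-- The tails statement. -/
def SmallTails : Prop :=
  ∀ ε : ℝ, 0 < ε → ∃ x : ℕ, ∀ (k : ℕ) (a : Fin k → ℕ), Admissible a → (∀ i, x < a i) →
    ∑ i, (1 : ℝ) / (a i : ℝ) ≤ ε

theorem tails_iff : SmallTails ↔ TQ.Tails := by
  constructor
  · intro h ε hε
    obtain ⟨x, hx⟩ := h ε hε
    refine ⟨x, fun k a ha hxa => ?_⟩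
    rw [R_fin]
    exact hx k _ (adm_of_ad ha) (fun i => hxa i i.2)
  · intro h ε hε
    obtain ⟨x, hx⟩ := h ε hε
    refine ⟨x, fun k a ha hxa => ?_⟩
    rw [← R_ext]
    refine hx k _ (ad_ext ha) (fun i hi => ?_)
    have := hxa ⟨i, hi⟩
    rw [← ext_val a] at this
    exact this

theorem summable_iff {a : ℕ → ℕ} :
    Summable (fun i => (1 : ℝ) / (a i : ℝ)) ↔ ∃ C : ℝ, ∀ n, TQ.R a n ≤ C := by
  constructor
  · intro h
    refine ⟨∑' i, (1 : ℝ) / (a i : ℝ), fun n => ?_⟩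
    exact h.sum_le_tsum (range n) (fun i _ => by positivity)
  · rintro ⟨C, hC⟩
    exact summable_of_sum_range_le (fun i => by positivity) hC

/-- **Theorem.** (1) Q1 holds if and only if the reciprocal sums of admissible sequences with all
terms above `x` tend to `0` uniformly as `x` tends to infinity.  (2) Q1 holds if and only if every
infinite admissible sequence has a convergent reciprocal sum.  (3) If Q1 holds, then an admissible
sequence in `[1, n]` has at most `o(n)` terms, that is `f(n) = o(n)` (Erdos). -/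
theorem result :
    (Q1 ↔ ∀ ε : ℝ, 0 < ε → ∃ x : ℕ, ∀ (k : ℕ) (a : Fin k → ℕ), Admissible a →
      (∀ i, x < a i) → ∑ i, (1 : ℝ) / (a i : ℝ) ≤ ε) ∧
    (Q1 ↔ ∀ a : ℕ → ℕ, AdmissibleInf a → Summable (fun i => (1 : ℝ) / (a i : ℝ))) ∧
    (Q1 → ∀ ε : ℝ, 0 < ε → ∃ N : ℕ, ∀ n : ℕ, N ≤ n → ∀ (k : ℕ) (a : Fin k → ℕ),
      Admissible a → (∀ i, a i ≤ n) → (k : ℝ) ≤ ε * n) := by
  have h12 : TQ.Bdd → ∀ a : ℕ → ℕ, AdmissibleInf a →
      Summable (fun i => (1 : ℝ) / (a i : ℝ)) := by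
    intro h a ha
    exact summable_iff.2 (TQ.inf_of_bdd h a ((adInf_iff a).1 ha))
  have h23 : (∀ a : ℕ → ℕ, AdmissibleInf a → Summable (fun i => (1 : ℝ) / (a i : ℝ))) →
      TQ.Tails := by
    intro h
    exact TQ.tails_of_inf fun a ha => summable_iff.1 (h a ((adInf_iff a).2 ha))
  refine ⟨⟨fun h => tails_iff.2 (h23 (h12 (q1_iff.1 h))),
    fun h => q1_iff.2 (TQ.bdd_of_tails (tails_iff.1 h))⟩,
    ⟨fun h => h12 (q1_iff.1 h), fun h => q1_iff.2 (TQ.bdd_of_tails (h23 h))⟩, ?_⟩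
  intro h ε hε
  obtain ⟨N, hN⟩ := TQ.count_of_tails (h23 (h12 (q1_iff.1 h))) ε hε
  refine ⟨N, fun n hn k a ha hle => hN n hn k _ (ad_ext ha) fun i hi => ?_⟩
  have := hle ⟨i, hi⟩
  rw [← ext_val a] at this
  exact this

end Pool.Agent.Results.MP_7feddf_nt.TailEquivalence
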